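import Pool.Agent.H586.AF.A

/-!
# Project AF (helper586), task AF-V: bounds by the total variation in momentum space
-/

set_option autoImplicit false

open MeasureTheory Finset Filter Topology

namespace Pool.Agent.H23.AF

open Pool.Agent.H586.AF

/-- summation by parts on the cyclic group of order `2 L` -/
theorem abel (L : ℕ) (hL : 1 ≤ L) (σ : ℕ → ℝ) (hσ : σ (2 * L) = σ 0) (z : ℤ)
    (hz : |z| ≤ (L : ℤ)) :
    |(z : ℝ)| * ‖((1 / (2 * (L : ℝ)) : ℝ) : ℂ) * ∑ n ∈ range (2 * L), (σ n : ℂ) *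
      Complex.exp (((Real.pi * n / L * z : ℝ) : ℂ) * Complex.I)‖ ≤
        (∑ n ∈ range (2 * L), |σ (n + 1) - σ n|) / 4 := by
  have hL0 : (0 : ℝ) < L := by exact_mod_cast hL
  obtain ⟨E, hE⟩ : ∃ E : ℕ → ℂ, ∀ n, E n =
      Complex.exp (((Real.pi * n / L * z : ℝ) : ℂ) * Complex.I) := ⟨_, fun _ => rfl⟩
  obtain ⟨w, hw⟩ : ∃ w : ℂ, w = Complex.exp (Complex.I * ((Real.pi * z / L : ℝ) : ℂ)) :=
    ⟨_, rfl⟩
  simp only [← hE]
  obtain ⟨S, hS⟩ : ∃ S : ℂ, S = ∑ n ∈ range (2 * L), (σ n : ℂ) * E n := ⟨_, rfl⟩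
  rw [← hS]
  have hEs : ∀ n, E (n + 1) = w * E n := by
    intro n
    rw [hE, hE, hw, ← Complex.exp_add]
    congr 1
    push_cast
    field_simp
    ring
  have hE0 : E 0 = 1 := by
    rw [hE]
    simp
  have hE2 : E (2 * L) = 1 := by
    rw [hE, Complex.exp_eq_one_iff]
    refine ⟨z, ?_⟩
    have hL' : (L : ℂ) ≠ 0 := by exact_mod_cast hL0.ne'
    push_cast
    field_simp
  have hEn : ∀ n, ‖E n‖ = 1 := by
    intro n
    rw [hE]
    exact Complex.norm_exp_ofReal_mul_I _
  -- the main identity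
  have key : (w - 1) * S = - ∑ n ∈ range (2 * L), ((σ (n + 1) - σ n : ℝ) : ℂ) * E (n + 1) := by
    have h1 : ∑ n ∈ range (2 * L), (σ (n + 1) : ℂ) * E (n + 1) = S := by
      have h2 := Finset.sum_range_succ' (fun n => (σ n : ℂ) * E n) (2 * L)
      rw [Finset.sum_range_succ, ← hS, hσ, hE0, hE2] at h2
      exact (add_right_cancel h2).symm
    have h3 : w * S = ∑ n ∈ range (2 * L), (σ n : ℂ) * E (n + 1) := by
      rw [hS, Finset.mul_sum]
      refine Finset.sum_congr rfl fun n _ => ?_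
      rw [hEs]
      ring
    have h4 : ∑ n ∈ range (2 * L), ((σ (n + 1) - σ n : ℝ) : ℂ) * E (n + 1) = S - w * S := by
      rw [h3]
      nth_rewrite 1 [← h1]
      rw [← Finset.sum_sub_distrib]
      refine Finset.sum_congr rfl fun n _ => ?_
      push_cast
      ring
    rw [h4]
    ring
  have hV : ‖w - 1‖ * ‖S‖ ≤ ∑ n ∈ range (2 * L), |σ (n + 1) - σ n| := by
    rw [← norm_mul, key, norm_neg]
    refine (norm_sum_le _ _).trans (Finset.sum_le_sum fun n _ => ?_)
    rw [norm_mul, hEn, mul_one, Complex.norm_real, Real.norm_eq_abs]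
  have hw1 : 2 * |(z : ℝ)| / L ≤ ‖w - 1‖ := by
    rw [hw, Complex.norm_exp_I_mul_ofReal_sub_one, Real.norm_eq_abs, abs_mul, abs_two]
    have h1 : |Real.pi * z / L / 2| = Real.pi * |(z : ℝ)| / (2 * L) := by
      rw [abs_div, abs_div, abs_mul, abs_of_pos Real.pi_pos, abs_of_pos hL0, abs_two]
      field_simp
    have hz' : |(z : ℝ)| ≤ L := by exact_mod_cast hz
    have h2 : |Real.pi * z / L / 2| ≤ Real.pi / 2 := by
      rw [h1, div_le_div_iff₀ (by positivity) (by norm_num)]
      nlinarith [Real.pi_pos, mul_le_mul_of_nonneg_left hz' Real.pi_pos.le]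
    have h3 := Real.mul_abs_le_abs_sin h2
    rw [h1] at h3
    have h4 : 2 / Real.pi * (Real.pi * |(z : ℝ)| / (2 * L)) = |(z : ℝ)| / L := by
      field_simp
    rw [h4] at h3
    calc 2 * |(z : ℝ)| / L = 2 * (|(z : ℝ)| / L) := by ring
      _ ≤ _ := mul_le_mul_of_nonneg_left h3 (by norm_num)
  have habs : |1 / (2 * (L : ℝ))| = 1 / (2 * (L : ℝ)) := abs_of_pos (by positivity)
  rw [norm_mul, Complex.norm_real, Real.norm_eq_abs, habs]
  have h5 : |(z : ℝ)| ≤ ‖w - 1‖ * L / 2 := by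
    rw [div_le_iff₀ hL0] at hw1
    linarith
  calc |(z : ℝ)| * (1 / (2 * (L : ℝ)) * ‖S‖)
      ≤ (‖w - 1‖ * L / 2) * (1 / (2 * (L : ℝ)) * ‖S‖) :=
        mul_le_mul_of_nonneg_right h5 (by positivity)
    _ = (‖w - 1‖ * ‖S‖) / 4 := by
        field_simp
        ring
    _ ≤ _ := div_le_div_of_nonneg_right hV (by norm_num)

theorem re_form (c : ℝ) (N : ℕ) (σ x : ℕ → ℝ) :
    ((c : ℂ) * ∑ n ∈ range N, (σ n : ℂ) * Complex.exp ((x n : ℂ) * Complex.I)).re =
      c * ∑ n ∈ range N, σ n * Real.cos (x n) := by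
  rw [Complex.re_ofReal_mul, Complex.re_sum]
  congr 1
  refine Finset.sum_congr rfl fun n _ => ?_
  rw [Complex.re_ofReal_mul, Complex.exp_ofReal_mul_I_re]

theorem im_form (c : ℝ) (N : ℕ) (σ x : ℕ → ℝ) :
    ((c : ℂ) * ∑ n ∈ range N, (σ n : ℂ) * Complex.exp ((x n : ℂ) * Complex.I)).im =
      c * ∑ n ∈ range N, σ n * Real.sin (x n) := by
  rw [Complex.im_ofReal_mul, Complex.im_sum]
  congr 1
  refine Finset.sum_congr rfl fun n _ => ?_
  rw [Complex.im_ofReal_mul, Complex.exp_ofReal_mul_I_im]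

/-- the variation of a function on the grid -/
theorem tv_le (L : ℕ) (hL : 1 ≤ L) (g H : ℝ → ℝ) (a : ℝ) (ha : |a| = 1)
    (hg : ∀ x, g (2 * Real.pi - x) = a * g x)
    (hH : ∀ x y, 0 ≤ x → x ≤ y → y ≤ Real.pi → |g y - g x| ≤ H y - H x) :
    ∑ n ∈ range (2 * L), |g (Real.pi * (n + 1 : ℕ) / L) - g (Real.pi * n / L)| ≤
      2 * (H Real.pi - H 0) := by
  have hL0 : (0 : ℝ) < L := by exact_mod_cast hL
  have h1 : ∑ n ∈ range L, |g (Real.pi * (n + 1 : ℕ) / L) - g (Real.pi * n / L)| ≤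
      H Real.pi - H 0 := by
    have h2 : ∀ n ∈ range L, |g (Real.pi * (n + 1 : ℕ) / L) - g (Real.pi * n / L)| ≤
        H (Real.pi * (n + 1 : ℕ) / L) - H (Real.pi * n / L) := by
      intro n hn
      have hn' : ((n + 1 : ℕ) : ℝ) ≤ L := by exact_mod_cast Finset.mem_range.1 hn
      refine hH _ _ (by positivity) ?_ ?_
      · push_cast
        gcongr
        linarith
      · rw [div_le_iff₀ hL0]
        exact mul_le_mul_of_nonneg_left hn' Real.pi_pos.le
    refine (Finset.sum_le_sum h2).trans ?_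
    rw [Finset.sum_range_sub (fun n : ℕ => H (Real.pi * n / L)) L]
    rw [mul_div_cancel_right₀ _ hL0.ne']
    simp
  have h3 : ∑ n ∈ range L, |g (Real.pi * ((L + n) + 1 : ℕ) / L) - g (Real.pi * (L + n : ℕ) / L)| =
      ∑ n ∈ range L, |g (Real.pi * (n + 1 : ℕ) / L) - g (Real.pi * n / L)| := by
    rw [← Finset.sum_range_reflect]
    refine Finset.sum_congr rfl fun n hn => ?_
    have hn' := Finset.mem_range.1 hn
    have e1 : Real.pi * ((L + (L - 1 - n)) + 1 : ℕ) / L = 2 * Real.pi - Real.pi * n / L := by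
      have : ((L + (L - 1 - n)) + 1 : ℕ) = 2 * L - n := by omega
      rw [this, Nat.cast_sub (by omega)]
      push_cast
      field_simp
    have e2 : Real.pi * (L + (L - 1 - n) : ℕ) / L = 2 * Real.pi - Real.pi * (n + 1 : ℕ) / L := by
      have : (L + (L - 1 - n) : ℕ) = 2 * L - (n + 1) := by omega
      rw [this, Nat.cast_sub (by omega)]
      push_cast
      field_simp
    rw [e1, e2, hg, hg, ← mul_sub, abs_mul, ha, one_mul, abs_sub_comm]
  rw [two_mul L, Finset.sum_range_add, h3]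
  linarith

/-- the weight -/
noncomputable def gs (t x : ℝ) : ℝ := Real.sin x * Real.exp (-t * ek x)

theorem gs_bound {t x : ℝ} (ht : 0 ≤ t) (h0 : 0 ≤ x) (hx : x ≤ Real.pi) :
    gs t x ≤ 2 / Real.sqrt (1 + t) := by
  have hs : 0 ≤ Real.sin x := Real.sin_nonneg_of_nonneg_of_le_pi h0 hx
  have h1 : 0 < Real.sqrt (1 + t) := Real.sqrt_pos.2 (by linarith)
  rw [le_div_iff₀ h1]
  have h2 : 0 ≤ gs t x := mul_nonneg hs (Real.exp_pos _).le
  refine le_of_sq_le_sq ?_ (by norm_num)
  rw [mul_pow, Real.sq_sqrt (by linarith)]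
  unfold gs ek
  obtain ⟨y, hy⟩ : ∃ y : ℝ, y = 1 - Real.cos x := ⟨_, rfl⟩
  have hc1 := Real.cos_le_one x
  have hc2 := Real.neg_one_le_cos x
  have hy0 : 0 ≤ y := by linarith
  have hy2 : y ≤ 2 := by linarith
  have hsin : Real.sin x ^ 2 = y * (2 - y) := by
    have := Real.sin_sq_add_cos_sq x
    rw [hy]
    nlinarith
  have hexp : (Real.sin x * Real.exp (-t * (2 - 2 * Real.cos x))) ^ 2 =
      y * (2 - y) * Real.exp (-(4 * t * y)) := by
    rw [mul_pow, hsin, ← Real.exp_nat_mul]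
    congr 2
    rw [hy]
    push_cast
    ring
  rw [hexp]
  have he1 : Real.exp (-(4 * t * y)) ≤ 1 := Real.exp_le_one_iff.2 (by
    have : 0 ≤ 4 * t * y := by positivity
    linarith)
  have he0 := Real.exp_pos (-(4 * t * y))
  have he2 : (4 * t * y) * Real.exp (-(4 * t * y)) ≤ 1 := by
    have h3 := Real.add_one_le_exp (4 * t * y)
    rw [Real.exp_neg, ← div_eq_mul_inv, div_le_one (Real.exp_pos _)]
    linarith
  have h4 : y * (2 - y) ≤ 1 := by nlinarith [sq_nonneg (y - 1)]
  have h5 : 0 ≤ y * (2 - y) := mul_nonneg hy0 (by linarith)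
  calc y * (2 - y) * Real.exp (-(4 * t * y)) * (1 + t)
      = y * (2 - y) * Real.exp (-(4 * t * y)) +
        (2 - y) / 4 * ((4 * t * y) * Real.exp (-(4 * t * y))) := by ring
    _ ≤ 1 * 1 + (2 - y) / 4 * 1 := by
        refine add_le_add (mul_le_mul h4 he1 he0.le (by norm_num))
          (mul_le_mul_of_nonneg_left he2 (by linarith))
    _ ≤ 2 ^ 2 := by linarith

theorem gs_nonneg {t x : ℝ} (h0 : 0 ≤ x) (hx : x ≤ Real.pi) : 0 ≤ gs t x :=
  mul_nonneg (Real.sin_nonneg_of_nonneg_of_le_pi h0 hx) (Real.exp_pos _).le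

theorem gs_deriv (t x : ℝ) : HasDerivAt (gs t)
    ((Real.cos x - 2 * t * (1 - Real.cos x ^ 2)) * Real.exp (-t * ek x)) x := by
  have h1 : HasDerivAt (fun x => -t * ek x) (-t * (2 * Real.sin x)) x := by
    unfold ek
    have h2 := ((Real.hasDerivAt_cos x).const_mul 2).const_sub 2
    have h3 := h2.const_mul (-t)
    refine h3.congr_deriv ?_
    ring
  have h4 := (Real.hasDerivAt_sin x).mul h1.exp
  refine h4.congr_deriv ?_
  have := Real.sin_sq_add_cos_sq x
  have h5 : Real.sin x * Real.sin x = 1 - Real.cos x ^ 2 := by rw [← this]; ring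
  linear_combination (-(2 * t) * Real.exp (-t * ek x)) * h5

/-- the weight increases up to a point and then decreases -/
theorem gs_uni {t : ℝ} (ht : 0 ≤ t) : ∃ x₀ : ℝ, 0 ≤ x₀ ∧ x₀ ≤ Real.pi ∧
    MonotoneOn (gs t) (Set.Icc 0 x₀) ∧ AntitoneOn (gs t) (Set.Icc x₀ Real.pi) := by
  obtain ⟨c, hc, hc0⟩ : ∃ c ∈ Set.Icc (0 : ℝ) 1, c - 2 * t * (1 - c ^ 2) = 0 := by
    have h := intermediate_value_Icc (f := fun c : ℝ => c - 2 * t * (1 - c ^ 2))
      (zero_le_one' ℝ) (by fun_prop)
    have h2 : (0 : ℝ) ∈ Set.Icc ((fun c : ℝ => c - 2 * t * (1 - c ^ 2)) 0)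
        ((fun c : ℝ => c - 2 * t * (1 - c ^ 2)) 1) := by
      constructor
      · show (0 : ℝ) - 2 * t * (1 - 0 ^ 2) ≤ 0
        linarith
      · show (0 : ℝ) ≤ 1 - 2 * t * (1 - 1 ^ 2)
        linarith
    exact h h2
  have hcos : Real.cos (Real.arccos c) = c := Real.cos_arccos (by linarith [hc.1]) hc.2
  refine ⟨Real.arccos c, Real.arccos_nonneg c, Real.arccos_le_pi c, ?_, ?_⟩
  · refine monotoneOn_of_deriv_nonneg (convex_Icc _ _)
      (fun x _ => (gs_deriv t x).continuousAt.continuousWithinAt)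
      (fun x _ => (gs_deriv t x).differentiableAt.differentiableWithinAt) ?_
    intro x hx
    rw [interior_Icc] at hx
    rw [(gs_deriv t x).deriv]
    refine mul_nonneg ?_ (Real.exp_pos _).le
    have h1 : c ≤ Real.cos x := by
      rw [← hcos]
      exact Real.cos_le_cos_of_nonneg_of_le_pi hx.1.le (Real.arccos_le_pi c) hx.2.le
    have h2 : 0 ≤ t * (Real.cos x ^ 2 - c ^ 2) :=
      mul_nonneg ht (by nlinarith [hc.1])
    nlinarith
  · refine antitoneOn_of_deriv_nonpos (convex_Icc _ _)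
      (fun x _ => (gs_deriv t x).continuousAt.continuousWithinAt)
      (fun x _ => (gs_deriv t x).differentiableAt.differentiableWithinAt) ?_
    intro x hx
    rw [interior_Icc] at hx
    rw [(gs_deriv t x).deriv]
    refine mul_nonpos_of_nonpos_of_nonneg ?_ (Real.exp_pos _).le
    have h1 : Real.cos x ≤ c := by
      rw [← hcos]
      exact Real.cos_le_cos_of_nonneg_of_le_pi (Real.arccos_nonneg c) hx.2.le hx.1.le
    have hc2 := Real.cos_le_one x
    have hc3 := Real.neg_one_le_cos x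
    rcases le_total 0 (Real.cos x) with h3 | h3
    · have h2 : 0 ≤ t * (c ^ 2 - Real.cos x ^ 2) :=
        mul_nonneg ht (by nlinarith)
      nlinarith
    · have h2 : 0 ≤ t * (1 - Real.cos x ^ 2) := mul_nonneg ht (by nlinarith)
      nlinarith

theorem ek_refl (x : ℝ) : ek (2 * Real.pi - x) = ek x := by
  unfold ek
  rw [Real.cos_two_pi_sub]

/-- **Task AF-V** -/
theorem tv : S_V := by
  refine ⟨4, fun L hL t ht z hz => ?_⟩
  have hL1 : 1 ≤ L := by omega
  have hL0 : (0 : ℝ) < L := by exact_mod_cast hL1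
  constructor
  · -- the heat kernel
    have h1 := abel L hL1 (fun n => Real.exp (-t * ek (Real.pi * n / L))) (by
      show Real.exp (-t * ek (Real.pi * (2 * L : ℕ) / L)) = Real.exp (-t * ek (Real.pi * (0 : ℕ) / L))
      have e : Real.pi * (2 * L : ℕ) / L = 2 * Real.pi - Real.pi * (0 : ℕ) / L := by
        push_cast
        field_simp
        ring
      rw [e, ek_refl]) z hz
    have h2 := tv_le L hL1 (fun x => Real.exp (-t * ek x)) (fun x => -Real.exp (-t * ek x)) 1
      (by norm_num) (fun x => by rw [ek_refl, one_mul]) (fun x y hx hxy hy => by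
        have h3 : Real.exp (-t * ek y) ≤ Real.exp (-t * ek x) := by
          apply Real.exp_le_exp.2
          unfold ek
          have h4 := Real.cos_le_cos_of_nonneg_of_le_pi hx hy hxy
          nlinarith
        rw [abs_sub_comm, abs_of_nonneg (by linarith)]
        linarith)
    have h3 : -Real.exp (-t * ek Real.pi) - -Real.exp (-t * ek 0) ≤ 1 := by
      have h4 := Real.exp_pos (-t * ek Real.pi)
      have h5 : Real.exp (-t * ek 0) = 1 := by
        unfold ek
        simp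
      rw [h5]
      linarith
    have h6 : rr L t z ≤ ‖((1 / (2 * (L : ℝ)) : ℝ) : ℂ) * ∑ n ∈ range (2 * L),
        ((Real.exp (-t * ek (Real.pi * n / L)) : ℝ) : ℂ) *
          Complex.exp (((Real.pi * n / L * z : ℝ) : ℂ) * Complex.I)‖ := by
      refine le_trans ?_ (Complex.re_le_norm _)
      rw [re_form (1 / (2 * (L : ℝ))) (2 * L) (fun n => Real.exp (-t * ek (Real.pi * n / L)))
        (fun n => Real.pi * n / L * z)]
      exact le_rfl
    have h7 := mul_le_mul_of_nonneg_left h6 (abs_nonneg (z : ℝ))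
    refine h7.trans (h1.trans ?_)
    linarith
  · -- the gradient
    have h1 := abel L hL1 (fun n => gs t (Real.pi * n / L)) (by
      show gs t (Real.pi * (2 * L : ℕ) / L) = gs t (Real.pi * (0 : ℕ) / L)
      have e : Real.pi * (2 * L : ℕ) / L = 2 * Real.pi := by
        push_cast
        field_simp
      rw [e]
      unfold gs
      simp) z hz
    obtain ⟨x₀, hx0, hx1, hmono, hanti⟩ := gs_uni ht
    have hg0 : gs t 0 = 0 := by
      unfold gs
      simp
    have hgpi : gs t Real.pi = 0 := by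
      unfold gs
      simp
    have h2 := tv_le L hL1 (gs t) (fun x => if x ≤ x₀ then gs t x else 2 * gs t x₀ - gs t x) (-1)
      (by norm_num) (fun x => by
        unfold gs
        rw [ek_refl, Real.sin_two_pi_sub]
        ring) (fun x y hx hxy hy => by
        by_cases hy1 : y ≤ x₀
        · have hx2 : x ≤ x₀ := hxy.trans hy1
          rw [if_pos hy1, if_pos hx2]
          have h3 := hmono ⟨hx, hx2⟩ ⟨hx.trans hxy, hy1⟩ hxy
          rw [abs_of_nonneg (by linarith)]
        · rw [if_neg hy1]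
          push Not at hy1
          have hy2 := hanti ⟨le_rfl, hx1⟩ ⟨hy1.le, hy⟩ hy1.le
          by_cases hx2 : x ≤ x₀
          · rw [if_pos hx2]
            have hx3 := hmono ⟨hx, hx2⟩ ⟨hx0, le_rfl⟩ hx2
            rw [abs_le]
            constructor <;> linarith
          · rw [if_neg hx2]
            push Not at hx2
            have h3 := hanti ⟨hx2.le, hxy.trans hy⟩ ⟨hy1.le, hy⟩ hxy
            rw [abs_sub_comm, abs_of_nonneg (by linarith)]
            linarith)
    have h3 : (if Real.pi ≤ x₀ then gs t Real.pi else 2 * gs t x₀ - gs t Real.pi) -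
        (if (0 : ℝ) ≤ x₀ then gs t 0 else 2 * gs t x₀ - gs t 0) ≤ 2 * gs t x₀ := by
      rw [if_pos hx0, hg0, hgpi]
      have := gs_nonneg (t := t) hx0 hx1
      split_ifs
      · linarith
      · linarith
    have hb := gs_bound ht hx0 hx1
    have h6 : |rr L t (z + 1) - rr L t (z - 1)| ≤ 2 * ‖((1 / (2 * (L : ℝ)) : ℝ) : ℂ) *
        ∑ n ∈ range (2 * L), ((gs t (Real.pi * n / L) : ℝ) : ℂ) *
          Complex.exp (((Real.pi * n / L * z : ℝ) : ℂ) * Complex.I)‖ := by
      have h7 := Complex.abs_im_le_norm (((1 / (2 * (L : ℝ)) : ℝ) : ℂ) *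
        ∑ n ∈ range (2 * L), ((gs t (Real.pi * n / L) : ℝ) : ℂ) *
          Complex.exp (((Real.pi * n / L * z : ℝ) : ℂ) * Complex.I))
      rw [im_form (1 / (2 * (L : ℝ))) (2 * L) (fun n => gs t (Real.pi * n / L))
        (fun n => Real.pi * n / L * z)] at h7
      have h8 : rr L t (z + 1) - rr L t (z - 1) = -(2 * (1 / (2 * (L : ℝ)) *
          ∑ n ∈ range (2 * L), gs t (Real.pi * n / L) * Real.sin (Real.pi * n / L * z))) := by
        unfold rr
        rw [← mul_sub, ← Finset.sum_sub_distrib, mul_left_comm, ← mul_neg]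
        congr 1
        rw [Finset.mul_sum, ← Finset.sum_neg_distrib]
        refine Finset.sum_congr rfl fun n _ => ?_
        unfold gs
        push_cast
        rw [mul_add, mul_sub, mul_one, Real.cos_add, Real.cos_sub]
        ring
      rw [h8, abs_neg, abs_mul, abs_two]
      linarith
    have h9 := mul_le_mul_of_nonneg_left h6 (abs_nonneg (z : ℝ))
    refine h9.trans ?_
    have e4 : (4 : ℝ) / Real.sqrt (1 + t) = 2 * (2 / Real.sqrt (1 + t)) := by ring
    rw [e4]
    nlinarith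

end Pool.Agent.H23.AF
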